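import Mathlib

set_option autoImplicit false

open scoped ContDiff
open Set Filter Topology

namespace Pool.Agent.W133.DQ

/-! ## Project DQ: homogeneous quasimorphisms on Diff_0(D^2,*) (MP_d4f2c9_gt). Definitions. -/

/-- The plane, coordinates `x = p.1`, `y = p.2`, with the sup norm. -/
abbrev P2 : Type := ℝ × ℝ

/-- Smooth diffeomorphism of the plane. -/
def SmD (f : Equiv.Perm P2) : Prop :=
  ContDiff ℝ ∞ (fun p => f p) ∧ ContDiff ℝ ∞ (fun p => f⁻¹ p)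

theorem smD_one : SmD 1 := ⟨contDiff_id, contDiff_id⟩

theorem smD_mul {f g : Equiv.Perm P2} (hf : SmD f) (hg : SmD g) : SmD (f * g) := by
  refine ⟨hf.1.comp hg.1, ?_⟩
  have : (fun p => (f * g)⁻¹ p) = (fun p => g⁻¹ p) ∘ (fun p => f⁻¹ p) := by
    funext p; simp [mul_inv_rev]
  rw [this]
  exact hg.2.comp hf.2

theorem smD_inv {f : Equiv.Perm P2} (hf : SmD f) : SmD f⁻¹ := ⟨hf.2, by simpa using hf.1⟩

/-- Compactly supported smooth diffeomorphisms of the plane. -/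
def DC : Subgroup (Equiv.Perm P2) where
  carrier := {f | SmD f ∧ ∃ R : ℝ, ∀ p, R < ‖p‖ → f p = p}
  mul_mem' := by
    rintro f g ⟨hf, R, hR⟩ ⟨hg, R', hR'⟩
    refine ⟨smD_mul hf hg, max R R', fun p hp => ?_⟩
    rw [Equiv.Perm.mul_apply, hR' p (lt_of_le_of_lt (le_max_right _ _) hp),
      hR p (lt_of_le_of_lt (le_max_left _ _) hp)]
  one_mem' := ⟨smD_one, 0, fun p _ => rfl⟩
  inv_mem' := by
    rintro f ⟨hf, R, hR⟩
    refine ⟨smD_inv hf, R, fun p hp => ?_⟩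
    rw [Equiv.Perm.inv_eq_iff_eq, hR p hp]

theorem mem_DC {f : Equiv.Perm P2} : f ∈ DC ↔ SmD f ∧ ∃ R : ℝ, ∀ p, R < ‖p‖ → f p = p := Iff.rfl

/-- Compactly supported diffeomorphisms preserving every horizontal line. -/
def LP : Subgroup (Equiv.Perm P2) where
  carrier := {f | f ∈ DC ∧ ∀ p, (f p).2 = p.2}
  mul_mem' := by
    rintro f g ⟨hf, h1⟩ ⟨hg, h2⟩
    exact ⟨DC.mul_mem hf hg, fun p => by rw [Equiv.Perm.mul_apply, h1, h2]⟩
  one_mem' := ⟨DC.one_mem, fun _ => rfl⟩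
  inv_mem' := by
    rintro f ⟨hf, h1⟩
    refine ⟨DC.inv_mem hf, fun p => ?_⟩
    have := h1 (f⁻¹ p)
    rw [show f (f⁻¹ p) = p from f.apply_symm_apply p] at this
    exact this.symm

theorem mem_LP {f : Equiv.Perm P2} : f ∈ LP ↔ f ∈ DC ∧ ∀ p, (f p).2 = p.2 := Iff.rfl

/-- Compactly supported diffeomorphisms preserving every vertical line. -/
def VP : Subgroup (Equiv.Perm P2) where
  carrier := {f | f ∈ DC ∧ ∀ p, (f p).1 = p.1}
  mul_mem' := by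
    rintro f g ⟨hf, h1⟩ ⟨hg, h2⟩
    exact ⟨DC.mul_mem hf hg, fun p => by rw [Equiv.Perm.mul_apply, h1, h2]⟩
  one_mem' := ⟨DC.one_mem, fun _ => rfl⟩
  inv_mem' := by
    rintro f ⟨hf, h1⟩
    refine ⟨DC.inv_mem hf, fun p => ?_⟩
    have := h1 (f⁻¹ p)
    rw [show f (f⁻¹ p) = p from f.apply_symm_apply p] at this
    exact this.symm

theorem mem_VP {f : Equiv.Perm P2} : f ∈ VP ↔ f ∈ DC ∧ ∀ p, (f p).1 = p.1 := Iff.rfl

/-- Compactly supported diffeomorphisms fixing the origin. -/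
def DC0 : Subgroup (Equiv.Perm P2) where
  carrier := {f | f ∈ DC ∧ f 0 = 0}
  mul_mem' := by
    rintro f g ⟨hf, h1⟩ ⟨hg, h2⟩
    exact ⟨DC.mul_mem hf hg, by rw [Equiv.Perm.mul_apply, h2, h1]⟩
  one_mem' := ⟨DC.one_mem, rfl⟩
  inv_mem' := by
    rintro f ⟨hf, h1⟩
    exact ⟨DC.inv_mem hf, by rw [Equiv.Perm.inv_eq_iff_eq, h1]⟩

theorem mem_DC0 {f : Equiv.Perm P2} : f ∈ DC0 ↔ f ∈ DC ∧ f 0 = 0 := Iff.rfl

/-- Compactly supported diffeomorphisms which are the identity near the origin. -/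
def NP : Subgroup (Equiv.Perm P2) where
  carrier := {f | f ∈ DC ∧ ∃ ε : ℝ, 0 < ε ∧ ∀ p, ‖p‖ < ε → f p = p}
  mul_mem' := by
    rintro f g ⟨hf, ε, hε, h1⟩ ⟨hg, ε', hε', h2⟩
    refine ⟨DC.mul_mem hf hg, min ε ε', lt_min hε hε', fun p hp => ?_⟩
    rw [Equiv.Perm.mul_apply, h2 p (lt_of_lt_of_le hp (min_le_right _ _)),
      h1 p (lt_of_lt_of_le hp (min_le_left _ _))]
  one_mem' := ⟨DC.one_mem, 1, one_pos, fun _ _ => rfl⟩
  inv_mem' := by
    rintro f ⟨hf, ε, hε, h1⟩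
    exact ⟨DC.inv_mem hf, ε, hε, fun p hp => by rw [Equiv.Perm.inv_eq_iff_eq, h1 p hp]⟩

theorem mem_NP {f : Equiv.Perm P2} :
    f ∈ NP ↔ f ∈ DC ∧ ∃ ε : ℝ, 0 < ε ∧ ∀ p, ‖p‖ < ε → f p = p := Iff.rfl

theorem LP_le_DC : LP ≤ DC := fun _ h => h.1
theorem VP_le_DC : VP ≤ DC := fun _ h => h.1
theorem DC0_le_DC : DC0 ≤ DC := fun _ h => h.1
theorem NP_le_DC0 : NP ≤ DC0 := by
  rintro f ⟨hf, ε, hε, h⟩
  exact ⟨hf, h 0 (by simpa using hε)⟩
theorem NP_le_DC : NP ≤ DC := fun _ h => h.1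

/-- The translation by `v`. -/
def tr (v : P2) : Equiv.Perm P2 := Equiv.addRight v

@[simp] theorem tr_apply (v p : P2) : tr v p = p + v := rfl
@[simp] theorem tr_inv_apply (v p : P2) : (tr v)⁻¹ p = p - v := by
  rw [Equiv.Perm.inv_eq_iff_eq]; simp

/-- `μ` is additive on the subgroup `K`. -/
def HomOn {Γ : Type} [Group Γ] (K : Subgroup Γ) (μ : Γ → ℝ) : Prop :=
  ∀ a ∈ K, ∀ b ∈ K, μ (a * b) = μ a + μ b

/-- `μ` is a homogeneous quasimorphism on the subgroup `H`. -/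
def HQMOn {Γ : Type} [Group Γ] (H : Subgroup Γ) (μ : Γ → ℝ) : Prop :=
  (∃ D : ℝ, ∀ a ∈ H, ∀ b ∈ H, |μ (a * b) - μ a - μ b| ≤ D) ∧
    ∀ a ∈ H, ∀ n : ℤ, μ (a ^ n) = n * μ a

/-- `f` is the horizontal displacement map `p ↦ p + (u p, 0)`. -/
def IsG (f : Equiv.Perm P2) (u : P2 → ℝ) : Prop := ∀ p, f p = (p.1 + u p, p.2)

/-- displacement of the composition `g_u ∘ g_v`. -/
def star (u v : P2 → ℝ) (p : P2) : ℝ := v p + u (p.1 + v p, p.2)

/-- displacement of the inverse of `g_u` (the unique `t` with `t + u (p.1 + t, p.2) = 0`). -/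
noncomputable def nv (u : P2 → ℝ) (p : P2) : ℝ :=
  Classical.epsilon (fun t : ℝ => t + u (p.1 + t, p.2) = 0)

/-- dilation by `A`. -/
noncomputable def dil (A : ℝ) (u : P2 → ℝ) (p : P2) : ℝ := A * u (p.1 / A, p.2 / A)

/-- `chain w m = w_{m-1} * (w_{m-2} * ( ... * w_0))`, displacement of `g_{w_{m-1}} ∘ ... ∘ g_{w_0}`. -/
def chain (w : ℕ → P2 → ℝ) : ℕ → P2 → ℝ
  | 0 => fun _ => 0
  | (m + 1) => star (w m) (chain w m)

/-- plateau function: `1` on `[-a,a]`, `0` outside `(-b,b)`. -/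
noncomputable def pl (a b x : ℝ) : ℝ :=
  Real.smoothTransition ((b + x) / (b - a)) * Real.smoothTransition ((b - x) / (b - a))

/-- `χ₀`: `1` on `[0.3,0.7]`, support in `[0.1,0.9]`. -/
noncomputable def chi0 (x : ℝ) : ℝ := pl (1/5) (2/5) (x - 1/2)
/-- periodisation of `χ₀`. -/
noncomputable def chi (x : ℝ) : ℝ := chi0 (Int.fract x)
/-- `κ`: `1` on `[-0.4,0.4]`, support in `[-0.6,0.6]`. -/
noncomputable def kap (x : ℝ) : ℝ := pl (2/5) (3/5) x
/-- `θ₀`: `1` on `[-0.4,0.4]`, support in `[-0.8,0.8]`. -/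
noncomputable def the0 (y : ℝ) : ℝ := pl (2/5) (4/5) y
/-- 2-periodisation of `θ₀`. -/
noncomputable def the (y : ℝ) : ℝ := the0 (2 * (y / 2 - round (y / 2)))
/-- `κ₁`: `1` on `[-0.7,0.7]`, support in `[-0.9,0.9]`. -/
noncomputable def kap1 (y : ℝ) : ℝ := pl (7/10) (9/10) y

/-- Rolling up in the `x`-direction a function supported in `|x| ≤ A`: on `|x| ≤ 3/2` it is the
displacement of `P_{A+2} ∘ ... ∘ P_{-A-2}`, `P_k = T^{-k} g_u T^k`; extended 1-periodically. -/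
noncomputable def rollf (A : ℕ) (u : P2 → ℝ) (p : P2) : ℝ :=
  chain (fun i q => u (q.1 + ((i : ℝ) - A - 2), q.2)) (2 * A + 5) (Int.fract p.1, p.2)

/-- Stage R: dilate by `A` and roll up. -/
noncomputable def SR (A : ℕ) (v : P2 → ℝ) : P2 → ℝ := rollf A (dil A v)

/-- strip off the shear: `f' (x,y) = f (x,y) - f (0,y)`. -/
def strip (f : P2 → ℝ) (p : P2) : ℝ := f p - f (0, p.2)

/-- first unrolled part of a periodic displacement. -/
noncomputable def un1 (f : P2 → ℝ) (p : P2) : ℝ := chi0 p.1 * f p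
/-- second unrolled part of a periodic displacement. -/
noncomputable def un2 (f : P2 → ℝ) (p : P2) : ℝ :=
  kap p.1 * star (nv (fun q => chi q.1 * f q)) f p

/-- Stage U: strip and unroll. -/
noncomputable def SU (f : P2 → ℝ) : P2 → ℝ := star (un1 (strip f)) (un2 (strip f))

/-- the even pieces (moved to the middle) of a function with support in `|y| ≤ A`. -/
noncomputable def evp (A : ℕ) (W : P2 → ℝ) (i : ℕ) (p : P2) : ℝ :=
  the0 p.2 * W (p.1, p.2 + 2 * ((i : ℝ) - A))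
/-- the odd pieces (moved to the middle). -/
noncomputable def odp (A : ℕ) (W : P2 → ℝ) (i : ℕ) (p : P2) : ℝ :=
  kap1 p.2 * star (nv (fun q => the q.2 * W q)) W (p.1, p.2 + (2 * ((i : ℝ) - A) + 1))

/-- Stage Y: cut in the `y`-direction and superpose. -/
noncomputable def SY (A : ℕ) (W : P2 → ℝ) : P2 → ℝ :=
  star (chain (evp A W) (2 * A + 1)) (chain (odp A W) (2 * A + 1))

/-- the whole operation. -/
noncomputable def Psi (A : ℕ) (v : P2 → ℝ) : P2 → ℝ := SY A (SU (SR A v))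

/-- the `r`-th derivative of `u` is bounded by `b`. -/
def NB (r : ℕ) (u : P2 → ℝ) (b : ℝ) : Prop := ∀ p, ‖iteratedFDeriv ℝ r u p‖ ≤ b

/-- `u` vanishes outside the box `|x| < a`, `|y| < b`. -/
def SuppBox (a b : ℝ) (u : P2 → ℝ) : Prop := ∀ p : P2, (a ≤ |p.1| ∨ b ≤ |p.2|) → u p = 0

/-- `F` is the roll-up of `P` (`P` moves points by at most 1/2 horizontally). -/
def Roll (P : Equiv.Perm P2) (F : P2 → P2) : Prop :=
  (∀ p : P2, F (p.1 + 1, p.2) = ((F p).1 + 1, (F p).2)) ∧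
    ∃ k : ℕ, ∀ p : P2, |p.1| ≤ 2 → ∀ m n : ℕ, k ≤ m → k ≤ n →
      ((P * tr (1, 0)) ^ (m + n)) (p.1 - m, p.2) = ((F p).1 + n, (F p).2)

/-- smooth path of diffeomorphisms (parametrised by the whole line) with uniform compact support. -/
def SPath (F : ℝ → Equiv.Perm P2) : Prop :=
  ContDiff ℝ ∞ (fun q : ℝ × P2 => F q.1 q.2) ∧
    ContDiff ℝ ∞ (fun q : ℝ × P2 => (F q.1)⁻¹ q.2) ∧
    ∃ R : ℝ, ∀ t p, R < ‖p‖ → F t p = p

end Pool.Agent.W133.DQ
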